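import Pool.Agent.R302.FS.Stmt

/-!
Finitely strictly singular operators from `ell_p` to `c_0` and the closed ideal generated by
`K = diag (K_n)`, where `K_n : ell_2^n → ell_infinity^{k_n}` are uniform embeddings.

For every `1 < p < ∞` with `p ≠ 2` there is a finitely strictly singular operator `ell_p → c_0`
(one and the same operator for all choices of `K`) which is not in the closed ideal generated by
`K`.
* For `p < 2` it is the block diagonal operator whose blocks are the normalised Walsh matrices.
* For `p > 2` the rows of the blocks are the normalised indicator functions of the graphs of all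
  polynomials of degree `< d` over a prime field, where `d > 1 + p / 2`.
-/

set_option autoImplicit false

noncomputable section

open scoped ENNReal

namespace Pool.Agent.Results.MP_19e277_an.FSNotInIdealK

open Pool.Agent.R302.FSS

theorem _root_.Pool.Agent.Results.MP_19e277_an.FSNotInIdealK.result
    (𝕜 : Type) [RCLike 𝕜] (p : ℝ≥0∞) [Fact (1 ≤ p)] (hp1 : 1 < p) (hp : p ≠ ∞) (hp2 : p ≠ 2) :
    (∃ (k : ℕ → ℕ) (Kn : Maps 𝕜 k) (K : HilbSum 𝕜 p →L[𝕜] SupSum 𝕜 k), IsKMap k Kn K) ∧
    ∃ T : Ell 𝕜 p →L[𝕜] C0 𝕜, FinStrictlySingular T ∧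
      ∀ (k : ℕ → ℕ) (Kn : Maps 𝕜 k) (K : HilbSum 𝕜 p →L[𝕜] SupSum 𝕜 k),
        IsKMap k Kn K → T ∉ idealK K :=
  inclusion_fails 𝕜 p hp1 hp hp2

end Pool.Agent.Results.MP_19e277_an.FSNotInIdealK
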